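import Pool.Agent.H84.SM.Targets

/-!
# MP_70ba79_ag, row GDW: the derivative with respect to `w`
-/

set_option autoImplicit false

namespace Pool.Agent.H1.SM

open MvPolynomial SC Pool.Agent.H27.LV Pool.Agent.H84.SM

variable {k : Type} [Field k]

theorem dv_gA (G : MvPolynomial (Fin 3) k) : dv (gA G) = 0 := by
  unfold gA
  induction G using MvPolynomial.induction_on with
  | C a =>
    have h : aeval (xa (k := k)) (MvPolynomial.C a : MvPolynomial (Fin 3) k) =
        algebraMap k (A2 k) a := by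
      rw [← MvPolynomial.algebraMap_eq, AlgHom.commutes]
    rw [h]
    exact Derivation.map_algebraMap _ _
  | add p q hp hq => rw [map_add, map_add, hp, hq, add_zero]
  | mul_X p i hp =>
    rw [map_mul, Derivation.leibniz, hp, smul_zero, add_zero, aeval_X]
    have h : dv (xa (k := k) i) = 0 := by
      unfold dv xa
      rw [mkDerivation_X]
      rfl
    rw [h, smul_zero]

theorem gA_wh (w : Fin 3 ⊕ Fin 3 → ℕ) (c : ℕ) (hw : ∀ i, w (Sum.inl i) = c)
    (G : MvPolynomial (Fin 3) k) (d : ℕ) (hG : G.IsHomogeneous d) :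
    IsWeightedHomogeneous w (gA G) (d * c) := by
  unfold gA
  rw [aeval_def, eval₂_eq]
  refine IsWeightedHomogeneous.sum _ _ _ ?_
  intro m hm
  have hd : ∑ i, m i = d := by
    have h := hG (mem_support_iff.1 hm)
    rw [← h, Finsupp.weight_apply, Finsupp.sum_fintype]
    · simp
    · intro i; simp
  have h1 : IsWeightedHomogeneous w (algebraMap k (A2 k) (coeff m G)) 0 :=
    isWeightedHomogeneous_C w _
  have h2 : IsWeightedHomogeneous w (∏ i ∈ m.support, (xa (k := k) i) ^ m i)
      (∑ i ∈ m.support, m i • w (Sum.inl i)) :=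
    IsWeightedHomogeneous.prod _ _ _ fun i _ => (isWeightedHomogeneous_X k w (Sum.inl i)).pow _
  have h3 := h1.mul h2
  have h4 : 0 + ∑ i ∈ m.support, m i • w (Sum.inl i) = d * c := by
    rw [zero_add, ← hd, Finset.sum_mul]
    have : ∑ i ∈ m.support, m i • w (Sum.inl i) = ∑ i, m i • w (Sum.inl i) := by
      refine Finset.sum_subset (Finset.subset_univ _) ?_
      intro i _ hi
      rw [Finsupp.notMem_support_iff.1 hi, zero_smul]
    rw [this]
    refine Finset.sum_congr rfl fun i _ => ?_
    rw [hw i, smul_eq_mul]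
  rw [h4] at h3
  exact h3

theorem gA_BH (G : MvPolynomial (Fin 3) k) (d : ℕ) (hG : G.IsHomogeneous d) : BH d 0 (gA G) := by
  constructor
  · have h := gA_wh wx 1 (fun _ => rfl) G d hG
    rwa [mul_one] at h
  · have h := gA_wh wy 0 (fun _ => rfl) G d hG
    rwa [mul_zero] at h

theorem BH_mul {e i e' i' : ℕ} {a b : A2 k} (ha : BH e i a) (hb : BH e' i' b) :
    BH (e + e') (i + i') (a * b) := ⟨ha.1.mul hb.1, ha.2.mul hb.2⟩

theorem BH_nat (j : ℕ) : BH 0 0 ((j : A2 k)) := by
  have h : ((j : A2 k)) = C (j : k) := by rw [map_natCast]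
  rw [h]
  exact ⟨isWeightedHomogeneous_C _ _, isWeightedHomogeneous_C _ _⟩

theorem coeff_gR (G : MvPolynomial (Fin 3) k) (N : R2 k) (j : ℕ) :
    (gR G * Polynomial.derivative N).coeff j = gA G * (N.coeff (j + 1) * ((j + 1 : ℕ) : A2 k)) := by
  unfold gR
  rw [Polynomial.coeff_C_mul, Polynomial.coeff_derivative, Nat.cast_add, Nat.cast_one]

theorem pf_GDW (hPSG : T_PSG) : T_GDW := by
  intro k _ _ _ G d hd hsm n M τ N hN
  obtain ⟨hI, ⟨e, he, hB⟩, hP⟩ := hN
  refine ⟨?_, ⟨e + d, ?_, ?_⟩, ?_⟩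
  · intro j
    rw [coeff_gR, Derivation.leibniz, Derivation.leibniz, dv_gA, hI (j + 1)]
    have h1 : dv ((((j + 1 : ℕ)) : A2 k)) = 0 := Derivation.map_natCast _ _
    rw [h1]
    simp
  · push_cast at he ⊢
    rw [he]
    ring
  · intro j
    obtain ⟨h1, h2⟩ := hB (j + 1)
    rw [coeff_gR]
    constructor
    · intro hj
      have h3 := h1 (by omega)
      have h4 : n + 3 - 3 * (j + 1) = n - 3 * j := by omega
      rw [h4] at h3
      have h5 := BH_mul (gA_BH G d hsm.1) (BH_mul h3 (BH_nat (k := k) (j + 1)))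
      have h6 : d + (e + 0) = e + d := by omega
      have h7 : 0 + (n - 3 * j + 0) = n - 3 * j := by omega
      rw [h6, h7] at h5
      exact h5
    · intro hj
      rw [h2 (by omega), zero_mul, mul_zero]
  · intro l
    obtain ⟨g1, g2, -⟩ := hPSG k G d l
    obtain ⟨N1, hN1⟩ := hP l
    have h1 := g2 N
    rw [hN1] at h1
    have h2 : Polynomial.derivative (gp G ^ M * N1) = gp G ^ M * Polynomial.derivative N1 := by
      have h3 : gp G ^ M = Polynomial.C ((aeval (xb (k := k)) G) ^ M) := by
        unfold gp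
        rw [map_pow]
      rw [h3, Polynomial.derivative_C_mul]
    rw [h2] at h1
    rw [map_mul, g1]
    have hd0 : (d : k) ≠ 0 := by
      have : d ≠ 0 := by omega
      exact_mod_cast this
    have hc : Polynomial.C ((C ((d : k)⁻¹) : B2 k)) * Polynomial.C ((d : B2 k)) = 1 := by
      rw [← Polynomial.C_mul]
      have h4 : (d : B2 k) = C (d : k) := by rw [map_natCast]
      rw [h4, ← C_mul, inv_mul_cancel₀ hd0, C_1, Polynomial.C_1]
    refine ⟨Polynomial.C ((C ((d : k)⁻¹) : B2 k)) * Polynomial.derivative N1, ?_⟩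
    calc gp G * Psi G d l (Polynomial.derivative N)
        = (Polynomial.C ((C ((d : k)⁻¹) : B2 k)) * Polynomial.C ((d : B2 k))) * (gp G *
            Psi G d l (Polynomial.derivative N)) := by rw [hc, one_mul]
      _ = Polynomial.C ((C ((d : k)⁻¹) : B2 k)) * (Polynomial.C ((d : B2 k)) * gp G *
            Psi G d l (Polynomial.derivative N)) := by ring
      _ = gp G ^ M * (Polynomial.C ((C ((d : k)⁻¹) : B2 k)) * Polynomial.derivative N1) := by
          rw [← h1]; ring

end Pool.Agent.H1.SM
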