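import Pool.Agent.H84.SM.Targets

/-!
# MP_70ba79_ag, row ORK: the order along the curve does not depend on the chart
-/

set_option autoImplicit false

namespace Pool.Agent.H1.SM

open MvPolynomial SC Pool.Agent.H27.LV Pool.Agent.H84.SM

theorem pf_ORK (hTHE : T_THE) (hGPR : T_GPR) : T_ORK := by
  intro k _ _ _ G d hd hsm hirr e n M N hN
  obtain ⟨hp, -, -, -, hl⟩ := hGPR k G d hd hsm hirr
  have step : ∀ l : Fin 3, gp G ^ M ∣ Psi G d (l + 1) N → gp G ^ M ∣ Psi G d l N := by
    intro l h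
    obtain ⟨Θ, h1, -, h3⟩ := hTHE k G d hsm.1 l
    have h4 : gp G ^ M ∣ Θ (Psi G d (l + 1) N) := by
      have h5 := map_dvd Θ h
      rwa [map_pow, h1] at h5
    rw [h3 e n N hN] at h4
    refine hp.pow_dvd_of_dvd_mul_left M ?_ h4
    intro h5
    exact (hl (l + 1)).2.2.2 (hp.dvd_of_dvd_pow h5)
  intro l l' h
  have h2 : gp G ^ M ∣ Psi G d (l + 2) N := step (l + 2) (by
    have : (l + 2 + 1 : Fin 3) = l := by fin_cases l <;> rfl
    rw [this]; exact h)
  have h1 : gp G ^ M ∣ Psi G d (l + 1) N := step (l + 1) (by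
    have : (l + 1 + 1 : Fin 3) = l + 2 := by fin_cases l <;> rfl
    rw [this]; exact h2)
  have hc : l' = l ∨ l' = l + 1 ∨ l' = l + 2 := by
    fin_cases l <;> fin_cases l' <;> simp
  rcases hc with rfl | rfl | rfl
  · exact h
  · exact h1
  · exact h2

end Pool.Agent.H1.SM
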